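import Pool.Agent.Y192.KC.AMain

/-!
MP_410da7_ag, Q1: logarithmic Kodaira dimension `-∞` and `A¹`-uniruledness are equivalent for the
covers `w j ^ e j = F j (t 0 ^ m, …, t n ^ m)` of arbitrary projective varieties, `m` large, and
for the complements of the divisors `G (t 0 ^ m, …, t n ^ m) = 0` in them.
-/

set_option autoImplicit false

namespace Pool.Agent.Results.MP_410da7_ag.KummerAffineLines

open Pool.Agent.W619.PL Pool.Agent.Y192.KC

/-- Let `Z` be any irreducible projective variety in `P^n`, not in a coordinate hyperplane, with the
homogeneous prime ideal `I`, let `F 1, …, F r` and `G` be forms which do not vanish on `Z`, and let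
`e 1, …, e r` be positive numbers. There is a number `m0` with the following property. Let `m ≥ m0`
be divisible by the `e j`, and let `X` be any irreducible component, of dimension `d`, of the
projective variety with the equations `f (t 0 ^ m, …, t n ^ m) = 0`, `f ∈ I`, and
`w j ^ e j = F j (t 0 ^ m, …, t n ^ m)` in the weighted projective space with the homogeneous
coordinates `t i` and `w j`; `L` is the function field of `X`, and `t`, `w` are the coordinates of its
generic point. Let `X°` be the part of `X` where `G (t 0 ^ m, …, t n ^ m)` does not vanish. Then the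
following are equivalent:
(1) the logarithmic Kodaira dimension of `X°` is `-∞`,
(2) `X°` is `A¹`-uniruled,
(3) there is a one-parameter group `s ↦ diag (s ^ l 0, …, s ^ l n)` which acts nontrivially on
`P^n`, preserves `Z`, the divisor of `G` on `Z` and the divisors of the `F j` on `Z` up to multiples
of `e j`, and whose limits for `s → 0` of the points of `Z` with `G ≠ 0` satisfy `G ≠ 0` as well. -/
theorem result {n r : ℕ} (X : ZCov n r) :
    ∃ m0 : ℕ, ∀ m, m0 ≤ m → (∀ j, X.e j ∣ m) →
      ∀ (L : Type) [Field L] [Algebra ℂ L] (t : Fin (n + 1) → L) (w : Fin r → L),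
      ZField X m L t w → ∀ d : ℕ, Algebra.trdeg ℂ L = d →
      [LogKodairaNeg ℂ L d (OffG X.toCov m t), IsA1Uniruled ℂ L d (OffG X.toCov m t),
        ZLim X].TFAE :=
  mainA_all X

end Pool.Agent.Results.MP_410da7_ag.KummerAffineLines
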