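import Pool.Agent.Y174.RA.A7

/-!
MP_410da7_ag, Q1: on a variety of logarithmic Kodaira dimension `-∞` the symmetric differentials have
common zeros, in the directions killed by any given regular decomposable tensor.
-/

set_option autoImplicit false

open Pool.Agent.W619.TW Pool.Agent.W619.Y Pool.Agent.W619.PQ Pool.Agent.Y174 FF

namespace Pool.Agent.Results.MP_410da7_ag.LogTensorZeros

/-- Let `X` be a smooth quasi-projective variety of dimension `n` with function field `K` and boundary
`D`, and `δ v = 1` if the centre of the prime divisor `v` over a compactification lies in `D`, and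
`δ v = 0` otherwise (more generally, `δ` may be the multiplicities of any divisor `Δ` with real
coefficients). Let `α 1, ..., α d`, `d < n`, be rational 1-forms, linearly independent over `K`, and
`a ≠ 0` a rational function such that `a (α 1 ∧ ... ∧ α d) ^ m`, `m ≥ 1`, is a regular section of the
`m`-th power of the sheaf of (logarithmic) `d`-forms; for instance `d = 0`. If `κ (K + Δ) = -∞`, then
there is a nonzero tangent vector at the geometric generic point, which is killed by the `α j` and by
all (logarithmic) symmetric differentials of positive degrees. -/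
theorem result {K : Type} [Field K] [Algebra ℂ K] [Algebra.EssFiniteType ℂ K] {n d : ℕ}
    (hn : Algebra.trdeg ℂ K = n) (hd : d < n)
    -- the boundary
    {δ : Place ℂ K → ℝ}
    -- the tensor
    {α : Fin d → (Derivation ℂ K K →ₗ[K] K)} (hα : LinearIndependent K α) {m : ℕ} (hm : 1 ≤ m)
    {a : K} (ha : a ≠ 0) (hT : TenSec n δ α m a)
    (hκ : ¬ PairKod ℂ K n δ 0) :
    ∃ E : Fin n → Derivation ℂ K K, LinearIndependent K E ∧
      ∃ c : Fin n → AlgebraicClosure K, c ≠ 0 ∧
        (∀ j, ∑ i, c i * algebraMap K (AlgebraicClosure K) (α j (E i)) = 0) ∧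
        ∀ (l : ℕ) (s : Derivation ℂ K K → K) (p : MvPolynomial (Fin n) K), 1 ≤ l →
          IsSymDiff l s → SymOrb n δ s →
          (∀ x : Fin n → K, s (∑ i, x i • E i) = MvPolynomial.eval x p) →
          MvPolynomial.aeval c p = 0 :=
  RA.common_zero ‹Algebra.EssFiniteType ℂ K› hn hd hα hm ha hT hκ

end Pool.Agent.Results.MP_410da7_ag.LogTensorZeros
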