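import Pool.Agent.Y199.NN.Main

/-!
MP_410da7_ag, Q1: complements of hypersurfaces in complete intersections which are nondegenerate with
respect to their Newton polytopes have logarithmic Kodaira dimension `-∞` if and only if they are
`A¹`-uniruled.
-/

set_option autoImplicit false

namespace Pool.Agent.Results.MP_410da7_ag.NewtonNondegenerate

open Pool.Agent.Y199.NN Pool.Agent.W619.PL MvPolynomial

/-- Let `X` be an irreducible component, of dimension `m = n - #ι` and not contained in a coordinate
hyperplane, of the locally closed set `F_j = 0` (`j` in `ι`), `G_l ≠ 0` (`l` in `κ`) in the affine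
space of dimension `n`, where the `G_l` define a divisor with normal crossings on the smooth complete
intersection `F_j = 0`, and where `F`, `G` are nondegenerate at infinity. `K` is the function field
of `X` and `x` its generic point. The following are equivalent:

* the logarithmic Kodaira dimension of `X` is `-∞`;
* `X` is `A¹`-uniruled;
* over all algebraically closed extension fields of `k` there is a nonconstant polynomial curve in
  `F_j = 0`, `G_l ≠ 0` through every point, and the `G_l` are constant on it;
* for some weights the sum of the weighted degrees of all `F_j` and `G_l` is less than the sum of the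
  weights;
* the point `(1, ..., 1)` is not below the sum of the Newton polytopes of the `F_j` and `G_l`. -/
theorem result {k K : Type} [Field k] [IsAlgClosed k] [CharZero k] [Field K] [Algebra k K]
    {n m : ℕ} {ι κ : Type} [Fintype ι] [Fintype κ] {F : ι → MvPolynomial (Fin n) k}
    {G : κ → MvPolynomial (Fin n) k} {x : Fin n → K}
    (hgen : IntermediateField.adjoin k (Set.range x) = ⊤) (htr : Algebra.trdeg k K = m)
    (hm : m + Fintype.card ι = n) (hx : ∀ i, x i ≠ 0) (hF : ∀ j, aeval x (F j) = 0)
    (hG : ∀ l, aeval x (G l) ≠ 0) (hnc : ∀ a : Fin n → k, NormalCrossingsAt F G a)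
    (hnd : NondegenerateAtInfinity F G) :
    List.TFAE [
      LogKodairaNeg k K m (Boundary G x),
      IsA1Uniruled k K m (Boundary G x),
      ∀ (L : Type) [Field L] [IsAlgClosed L] [Algebra k L] (a : Fin n → L),
        (∀ j, aeval a (F j) = 0) → (∀ l, aeval a (G l) ≠ 0) → ∃ q : Fin n → Polynomial L,
          (∀ i, (q i).eval 0 = a i) ∧ (∃ i, 0 < (q i).natDegree) ∧
          (∀ j, aeval q (F j) = 0) ∧ ∀ l, aeval q (G l) = Polynomial.C (aeval a (G l)),
      ∃ w : Fin n → ℕ,
        ∑ j, weightedTotalDegree w (F j) + ∑ l, weightedTotalDegree w (G l) < ∑ i, w i,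
      ¬ Below (Sum.elim F G)] :=
  main hx hgen htr hm hF hG hnc hnd

end Pool.Agent.Results.MP_410da7_ag.NewtonNondegenerate
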