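import Pool.Agent.Y216.SV.Afm

/-!
MP_410da7_ag, Q1: the logarithmic Kodaira dimension and `𝔸¹`-uniruledness of the quasi-projective
varieties `X = V \ {x_j = 0 for some j in U}`, where `V` is any closed subvariety of the variety in
`P^N` of the vectors whose `m`-th powers (for instance, squares) are the values at the constants
`a i` of a polynomial of degree at most `n`, and `U` any set of coordinates.

`K` is the function field of `V`, `w` its dimension and `y` its generic point: `y i ^ m = H (a i)` for
a polynomial `H` of degree at most `n` over `K`. `OffU U y` is the set of the places of `K` whose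
centre is not on `X`, the boundary. `KodGe k K w (OffU U y) h` means that the logarithmic Kodaira
dimension of `X` is at least `h` (so `¬ KodGe k K w (OffU U y) 0` means that it is `-∞`),
`GeneralType k K w` that `V` is of general type, and `Psef k K w (OffU U y)` that the log canonical
divisor `K_X + D` is pseudo-effective.
-/

set_option autoImplicit false

namespace Pool.Agent.Results.MP_410da7_ag.PowerValueAffineLines

open Pool.Agent.W602.GT Pool.Agent.Y190.BV Pool.Agent.Y216.SV

/-- Let `k` be algebraically closed of characteristic zero, `m ≥ 2`,
`4 n + (n + 1) ^ 2 < 2 (N + 1)` and `a 0, ..., a N` distinct. Let `V` be a closed subvariety of `P^N`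
with generic point `y` such that `y i ^ m = H (a i)`, where `H` has degree at most `n` and is not
divisible by the `m`-th power of a polynomial of degree greater than one (this is automatic if
`n < 2 m`), and `X` the complement of the hyperplanes `x_j = 0`, `j` in `U`, in `V`.

(1) The following are equivalent: the logarithmic Kodaira dimension of `X` is `-∞`; the log canonical
divisor is not pseudo-effective; `X` is `𝔸¹`-uniruled, that is there is a dominant morphism
`Y × 𝔸¹ → X`, not constant on the affine lines, with `dim Y = dim X - 1`; there is such a morphism for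
some variety `Y` of any dimension; `U` has at most one element and `V` is not of general type.

(2) If `U` has two elements and `V` is not of general type, the logarithmic Kodaira dimension of `X`
is `dim X - 1`.

(3) If `U` has at least three elements or `V` is of general type, it is `dim X`. -/
theorem result {k : Type} [Field k] [IsAlgClosed k] [CharZero k] {N n m : ℕ} (hm : 2 ≤ m)
    (hN : 4 * n + (n + 1) ^ 2 < 2 * (N + 1)) {a : Fin (N + 1) → k}
    (ha : Function.Injective a) {K : Type} [Field K] [Algebra k K] {w : ℕ}
    (hw : Algebra.trdeg k K = w) {y : Fin (N + 1) → K} (hy0 : y ≠ 0) (hgen : coords k y = ⊤)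
    {H : Polynomial K} (hH : H.natDegree ≤ n)
    (hy : ∀ i, y i ^ m = H.eval (algebraMap k K (a i)))
    (hs : ∀ q : Polynomial K, q ^ m ∣ H → q.natDegree ≤ 1)
    {U : Set (Fin (N + 1))} (hyU : ∀ j ∈ U, y j ≠ 0) :
    [¬ KodGe k K w (OffU U y) 0, ¬ Psef k K w (OffU U y), AffineFamily U (k := k) y (w - 1),
      ∃ d, AffineFamily U (k := k) y d, U.ncard ≤ 1 ∧ ¬ GeneralType k K w].TFAE ∧
    (U.ncard = 2 → ¬ GeneralType k K w →
      KodGe k K w (OffU U y) (w - 1) ∧ ¬ KodGe k K w (OffU U y) w) ∧
    (3 ≤ U.ncard ∨ GeneralType k K w → KodGe k K w (OffU U y) w) := by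
  have hn : n ≤ N := by nlinarith
  refine affine_tfae hm hn hN ha
    ⟨hy0, mem_of_poly a n m y H hH fun i => (hy i).symm, hgen, hw⟩ ?_ hyU
  rw [Pool.Agent.Y190.SN.intp_eq ha hn hH hy]
  exact hs

end Pool.Agent.Results.MP_410da7_ag.PowerValueAffineLines
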